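import Mathlib

/-!
# MP_a6ca0f_co, Q1: spheres of FM-tetrahedra and opposite faces

Answer: yes.  For every FM-tetrahedron the ball at a vertex does not meet the closed
triangle spanned by the other three centres.
-/

open Metric

namespace Pool.Agent.Results.MP_a6ca0f_co.OppositeFace

/-- Euclidean three-space. -/
abbrev E3 := EuclideanSpace ℝ (Fin 3)

/-- The radius `r = √2 - 1` of the small balls. -/
noncomputable def r : ℝ := √2 - 1

/-- A ball is recorded as the pair (centre, radius); `body b` is the closed ball itself. -/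
def body (b : E3 × ℝ) : Set E3 := closedBall b.1 b.2

/-- A packing: a collection of closed balls of radius `1` or `r` whose interiors are pairwise
disjoint. -/
structure IsPacking (P : Set (E3 × ℝ)) : Prop where
  radius : ∀ b ∈ P, b.2 = 1 ∨ b.2 = r
  disj : ∀ b ∈ P, ∀ b' ∈ P, b ≠ b' → Disjoint (interior (body b)) (interior (body b'))

/-- The packing is saturated: no further ball of radius `r` can be added, that is, every ball of
radius `r` has an interior point in common with the interior of a ball of the packing. -/
def IsSaturated (P : Set (E3 × ℝ)) : Prop :=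
  ∀ c : E3, ∃ b ∈ P, ¬ Disjoint (interior (body (c, r))) (interior (body b))

/-- The additively weighted Voronoi cell of the ball `b` in the packing `P`. -/
def cell (P : Set (E3 × ℝ)) (b : E3 × ℝ) : Set E3 :=
  {x | ∀ b' ∈ P, dist x b.1 - b.2 ≤ dist x b'.1 - b'.2}

/-- `b` lists four balls of `P` with affinely independent centres whose cells have a common point.
The polyhedra of the FM-decomposition (the dual of the decomposition into cells) are spanned by
the centres of the balls whose cells share a vertex `s` of the cell decomposition, so every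
tetrahedron of the FM-decomposition is of this form, also one that arises from a larger polyhedron
by cutting it without new vertices. -/
structure IsFMTetrahedron (P : Set (E3 × ℝ)) (b : Fin 4 → E3 × ℝ) : Prop where
  mem : ∀ i, b i ∈ P
  indep : AffineIndependent ℝ (fun i => (b i).1)
  common : ∃ s : E3, ∀ i, s ∈ cell P (b i)

/-- The closed triangle spanned by the centres of the three balls other than `b i`. -/
def oppositeFace (b : Fin 4 → E3 × ℝ) (i : Fin 4) : Set E3 :=
  convexHull ℝ ((fun j => (b j).1) '' {j | j ≠ i})

/-- `(s, ρ)` is a support sphere of the four balls `b`: it is externally tangent to each. -/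
def IsSupport (b : Fin 4 → E3 × ℝ) (s : E3) (ρ : ℝ) : Prop :=
  0 ≤ ρ ∧ ∀ i, dist s (b i).1 = ρ + (b i).2

theorem r_pos : 0 < r := by
  have : (1 : ℝ) < √2 := by
    rw [Real.lt_sqrt (by norm_num)]; norm_num
  unfold r; linarith

theorem r_le_one : r ≤ 1 := by
  have : √2 ≤ 2 := by
    rw [Real.sqrt_le_left (by norm_num)]; norm_num
  unfold r; linarith

theorem interior_body {b : E3 × ℝ} (h : 0 < b.2) : interior (body b) = ball b.1 b.2 := by
  unfold body
  exact interior_closedBall _ h.ne'

/-- Balls with disjoint interiors have centres at distance at least the sum of the radii. -/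
theorem dist_ge_of_disjoint {b b' : E3 × ℝ} (h : 0 < b.2) (h' : 0 < b'.2)
    (hd : Disjoint (interior (body b)) (interior (body b'))) : b.2 + b'.2 ≤ dist b.1 b'.1 := by
  rw [interior_body h, interior_body h'] at hd
  exact (disjoint_ball_ball_iff h h').1 hd

theorem pos_of_radius {t : ℝ} (h : t = 1 ∨ t = r) : 0 < t := by
  rcases h with h | h
  · rw [h]; norm_num
  · rw [h]; exact r_pos

theorem r_le_of_radius {t : ℝ} (h : t = 1 ∨ t = r) : r ≤ t := by
  rcases h with h | h
  · rw [h]; exact r_le_one
  · rw [h]

/-- The function `y ↦ ‖y - a‖ ^ 2 - ‖y - s‖ ^ 2` is affine, so its superlevel sets are convex. -/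
theorem convex_superlevel (a s : E3) (t : ℝ) :
    Convex ℝ {y : E3 | t < dist y a ^ 2 - dist y s ^ 2} := by
  have key : ∀ y : E3, dist y a ^ 2 - dist y s ^ 2
      = 2 * inner ℝ (s - a) y + (‖a‖ ^ 2 - ‖s‖ ^ 2) := by
    intro y
    rw [dist_eq_norm, dist_eq_norm, norm_sub_sq_real, norm_sub_sq_real, inner_sub_left,
      real_inner_comm a y, real_inner_comm s y]
    ring
  intro x hx y hy u v hu hv huv
  simp only [Set.mem_ofPred_eq] at hx hy ⊢
  rw [key] at hx hy ⊢
  rw [inner_add_right, inner_smul_right, inner_smul_right]
  have hv' : v = 1 - u := by linarith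
  subst hv'
  rcases hu.eq_or_lt with h0 | h0
  · subst h0
    linarith
  · nlinarith [mul_lt_mul_of_pos_left hx h0, mul_le_mul_of_nonneg_left hy.le hv]

/-- The statement for four non-overlapping balls that have a support sphere of radius less
than `r`. -/
theorem disjoint_of_support (b : Fin 4 → E3 × ℝ) (s : E3) (ρ : ℝ)
    (hrad : ∀ i, (b i).2 = 1 ∨ (b i).2 = r)
    (hdisj : ∀ i j, i ≠ j → Disjoint (interior (body (b i))) (interior (body (b j))))
    (hs : IsSupport b s ρ) (hρ : ρ < r) (i : Fin 4) :
    Disjoint (body (b i)) (oppositeFace b i) := by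
  rw [Set.disjoint_left]
  intro x hx hxT
  have hi := pos_of_radius (hrad i)
  have hri := r_le_of_radius (hrad i)
  obtain ⟨hρ0, hs⟩ := hs
  have hsub : oppositeFace b i ⊆
      {y : E3 | (b i).2 ^ 2 - ρ ^ 2 < dist y (b i).1 ^ 2 - dist y s ^ 2} := by
    refine convexHull_min ?_ (convex_superlevel _ _ _)
    rintro _ ⟨j, hj, rfl⟩
    have hjpos := pos_of_radius (hrad j)
    have hd := dist_ge_of_disjoint hi hjpos (hdisj i j (Ne.symm hj))
    simp only [Set.mem_ofPred_eq]
    rw [dist_comm (b j).1 s, hs j, dist_comm (b j).1]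
    nlinarith [mul_self_le_mul_self (by linarith) hd, mul_pos hjpos (sub_pos.2 (hρ.trans_le hri))]
  have h1 := hsub hxT
  simp only [Set.mem_ofPred_eq] at h1
  have hxi : dist x (b i).1 ≤ (b i).2 := hx
  have h2 : dist x (b i).1 ^ 2 ≤ (b i).2 ^ 2 := pow_le_pow_left₀ dist_nonneg hxi 2
  have h3 : dist x s ^ 2 < ρ ^ 2 := by linarith
  have h4 : dist x s < ρ := lt_of_pow_lt_pow_left₀ 2 hρ0 h3
  have h5 := dist_triangle s x (b i).1
  rw [hs i, dist_comm s x] at h5
  linarith

/-- A common point of the cells is the centre of a support sphere of radius less than `r`. -/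
theorem support_of_common {P : Set (E3 × ℝ)} (hP : IsPacking P) (hS : IsSaturated P)
    {b : Fin 4 → E3 × ℝ} (hb : IsFMTetrahedron P b) :
    ∃ s ρ, IsSupport b s ρ ∧ ρ < r := by
  obtain ⟨s, hs⟩ := hb.common
  have hne : b 0 ≠ b 1 := by
    intro h
    have := hb.indep.injective (a₁ := 0) (a₂ := 1) (by simp [h])
    exact absurd this (by decide)
  have heq : ∀ i, dist s (b i).1 - (b i).2 = dist s (b 0).1 - (b 0).2 := fun i =>
    le_antisymm (hs i _ (hb.mem 0)) (hs 0 _ (hb.mem i))
  refine ⟨s, dist s (b 0).1 - (b 0).2, ⟨?_, fun i => by linarith [heq i]⟩, ?_⟩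
  · have p0 := pos_of_radius (hP.radius _ (hb.mem 0))
    have p1 := pos_of_radius (hP.radius _ (hb.mem 1))
    have hd := dist_ge_of_disjoint p0 p1 (hP.disj _ (hb.mem 0) _ (hb.mem 1) hne)
    have h1 := heq 1
    have h2 := dist_triangle (b 0).1 s (b 1).1
    rw [dist_comm (b 0).1 s] at h2
    linarith
  · obtain ⟨c, hc, hov⟩ := hS s
    have pc := pos_of_radius (hP.radius _ hc)
    rw [interior_body pc, interior_body (b := (s, r)) r_pos,
      disjoint_ball_ball_iff r_pos pc, not_le] at hov
    have := hs 0 c hc
    linarith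

/-- **Q1 of MP_a6ca0f_co, answered positively.**  In every saturated packing of balls of radii `1`
and `r = √2 - 1`, for every FM-tetrahedron and each of its vertices, the closed ball about that
vertex (hence also the open one) is disjoint from the closed triangle spanned by the other three
centres. -/
theorem result (P : Set (E3 × ℝ)) (hP : IsPacking P) (hS : IsSaturated P)
    (b : Fin 4 → E3 × ℝ) (hb : IsFMTetrahedron P b) (i : Fin 4) :
    Disjoint (body (b i)) (oppositeFace b i) := by
  obtain ⟨s, ρ, hs, hρ⟩ := support_of_common hP hS hb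
  refine disjoint_of_support b s ρ (fun i => hP.radius _ (hb.mem i)) (fun i j hij => ?_) hs hρ i
  refine hP.disj _ (hb.mem i) _ (hb.mem j) fun h => hij ?_
  exact hb.indep.injective (by simp [h])

end Pool.Agent.Results.MP_a6ca0f_co.OppositeFace
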